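import Pool.Agent.helper9.HX.Spec

set_option autoImplicit false

open scoped Classical

namespace Pool.Agent.helper9.HX

open Finset
open Pool.Agent.helper65.HC (V IsEig IsTop lam)
open Pool.Agent.helper9.HQ (Fam Dn E N Le hi c)
open Pool.Agent.helper9

lemma CBN_rest (C m e μ T w0 v0 φ ψ X H : ℝ) (hC : 1 ≤ C) (hm : 1 ≤ m) (hT : 0 ≤ T) (heμ : 0 ≤ e - μ)
    (hem : e - μ ≤ m) (hw0 : 0 ≤ w0) (hH : 0 ≤ H) (hφ : 0 ≤ φ) (hX : X ≤ 2 * m)
    (hv0' : v0 ≤ ψ * w0) (hw0' : w0 ≤ (e - μ) * ψ) (hmφ : m * φ ^ 2 ≤ C) (hmψ : m * ψ ≤ C)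
    (hmH : m * H ≤ C * φ ^ 2 * T) :
    4 * w0 + v0 + w0 ^ 2 + 4 * φ * w0 + X * H ≤
      (C * (4 + 6 * C) + 2 * C ^ 2) * (e - μ + T) / m := by
  have hm0 : 0 < m := by linarith
  have hC0 : 0 ≤ C := by linarith
  have hψ1 : ψ ≤ C / m := by
    rw [le_div_iff₀ hm0, mul_comm]
    exact hmψ
  have hCm : C / m ≤ C := div_le_self hC0 hm
  have hψC : ψ ≤ C := hψ1.trans hCm
  have hw0a : w0 ≤ (e - μ) * (C / m) := hw0'.trans (mul_le_mul_of_nonneg_left hψ1 heμ)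
  have hw0C : w0 ≤ C := by
    refine hw0a.trans ?_
    calc (e - μ) * (C / m) ≤ m * (C / m) := mul_le_mul_of_nonneg_right hem (by positivity)
      _ = C := by field_simp
  have hφC : φ ≤ C := by
    by_contra hcon
    push Not at hcon
    have h1 : φ ^ 2 ≤ m * φ ^ 2 := by nlinarith [sq_nonneg φ]
    nlinarith
  have hXH : X * H ≤ 2 * C ^ 2 * T / m := by
    have h1 : X * H ≤ 2 * m * H := mul_le_mul_of_nonneg_right hX hH
    refine h1.trans ?_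
    rw [le_div_iff₀ hm0]
    have h2 : C * T * (m * φ ^ 2) ≤ C * T * C := mul_le_mul_of_nonneg_left hmφ (by positivity)
    have h3 : m * (m * H) ≤ m * (C * φ ^ 2 * T) := mul_le_mul_of_nonneg_left hmH hm0.le
    nlinarith
  have h1 : v0 ≤ C * w0 := hv0'.trans (mul_le_mul_of_nonneg_right hψC hw0)
  have h2 : w0 ^ 2 ≤ C * w0 := by nlinarith
  have h3 : φ * w0 ≤ C * w0 := mul_le_mul_of_nonneg_right hφC hw0
  have h4 : 4 * w0 + v0 + w0 ^ 2 + 4 * φ * w0 ≤ (4 + 6 * C) * ((e - μ) * (C / m)) := by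
    have h5 : (4 + 6 * C) * w0 ≤ (4 + 6 * C) * ((e - μ) * (C / m)) :=
      mul_le_mul_of_nonneg_left hw0a (by positivity)
    nlinarith
  have h6 : (C * (4 + 6 * C) + 2 * C ^ 2) * (e - μ + T) / m =
      (4 + 6 * C) * ((e - μ) * (C / m)) + 2 * C ^ 2 * T / m + (2 * C ^ 2 * (e - μ) / m +
        C * (4 + 6 * C) * T / m) := by
    field_simp
    ring
  have h7 : 0 ≤ 2 * C ^ 2 * (e - μ) / m + C * (4 + 6 * C) * T / m := by positivity
  rw [h6]
  linarith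

lemma CBN_fin (K m ν h s : ℝ) (hK : 0 ≤ K) (hm : 2 * K ^ 2 + 12 * K + 2 ≤ m) (hν : 2 * ν + 1 ≤ m)
    (hh : 0 ≤ h) (hhm : h ≤ m) (hν1 : 1 ≤ ν) (hs : s = √(ν - 1)) :
    K * (m - 2 * ν + h) / m ≤ (m - 2 * ν) / 2 + min (h / 4) s := by
  have hm0 : 0 < m := by nlinarith [sq_nonneg K]
  have hs0 : 0 ≤ s := by rw [hs]; exact Real.sqrt_nonneg _
  rw [div_le_iff₀ hm0]
  have h8 : 8 * K ≤ m := by nlinarith [sq_nonneg K]
  have hT : 0 ≤ m - 2 * ν := by linarith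
  have h1 : K * (m - 2 * ν) ≤ (m - 2 * ν) / 8 * m := by nlinarith
  rcases le_total (h / 4) s with hc | hc
  · rw [min_eq_left hc]
    have h2 : K * h ≤ h / 8 * m := by nlinarith
    nlinarith
  · rw [min_eq_right hc]
    have h2 : K * h ≤ K * m := mul_le_mul_of_nonneg_left hhm hK
    have h3 : K ≤ 3 * (m - 2 * ν) / 8 + s := by
      rcases le_total (4 * K) (m - 2 * ν) with h4 | h4
      · linarith
      · have h5 : K ≤ s := by
          rw [hs]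
          apply Real.le_sqrt_of_sq_le
          nlinarith
        linarith
    nlinarith

theorem CBN (hN1 : N1_stmt) (hN4 : N4_stmt) (hN5 : N5_stmt) : CBN_stmt := by
  intro C hC
  refine ⟨⌈2 * (C * (4 + 6 * C) + 2 * C ^ 2) ^ 2 + 12 * (C * (4 + 6 * C) + 2 * C ^ 2) + 2⌉₊, ?_⟩
  intro m ν e T μ X H w1 w0 v1 v0 φ ψ hm hsum hνe hμν hμe hw1 hw0 hv1 hv0 hH hφ hψ hX hwv hv0' hw0' hmφ
    hmψ hmH hmain
  have hK0 : 0 ≤ C * (4 + 6 * C) + 2 * C ^ 2 := by positivity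
  have hrest := CBN_rest C m e μ T w0 v0 φ ψ X H hC (by exact_mod_cast (by omega : 1 ≤ m))
    (Nat.cast_nonneg _) (by
      have : (μ : ℝ) ≤ e := by exact_mod_cast hμe
      linarith) (by
      have h1 : (e : ℝ) ≤ m := by exact_mod_cast (by omega : e ≤ m)
      have h2 : (0 : ℝ) ≤ μ := Nat.cast_nonneg _
      linarith) hw0 hH hφ hX hv0' hw0' hmφ hmψ hmH
  set K := C * (4 + 6 * C) + 2 * C ^ 2 with hK
  have hmR : 2 * K ^ 2 + 12 * K + 2 ≤ (m : ℝ) := le_trans (Nat.le_ceil _) (by exact_mod_cast hm)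
  have hsumR : (m : ℝ) = 1 + ν + e + T := by exact_mod_cast hsum
  have hm0 : (0 : ℝ) < m := by nlinarith [sq_nonneg K]
  have hνR : (μ : ℝ) + 1 ≤ ν := by exact_mod_cast hμν
  have hνeR : (ν : ℝ) ≤ e := by exact_mod_cast hνe
  have hTR : (0 : ℝ) ≤ T := Nat.cast_nonneg _
  have hμR : (0 : ℝ) ≤ μ := Nat.cast_nonneg _
  obtain ⟨-, hGa, -, -, -, hlast⟩ := hN1 ν μ hμR
  have hl := hlast w1 v1 hw1 hv1 hwv
  have hG0 : 0 ≤ G ν μ := by linarith
  have hR0 : 0 ≤ K * ((e : ℝ) - μ + T) / m := by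
    apply div_nonneg _ hm0.le
    apply mul_nonneg hK0
    linarith
  have hXG : X ≤ G ν μ + K * ((e : ℝ) - μ + T) / m := by
    by_contra hcon
    push Not at hcon
    have h1 : X * (1 + (v1 + v0)) ≤ G ν μ * (1 + v1) + K * ((e : ℝ) - μ + T) / m := by linarith
    have h2 : 0 ≤ G ν μ * v0 := mul_nonneg hG0 hv0
    have h3 : 0 ≤ (X - G ν μ) * (v1 + v0) := mul_nonneg (by linarith) (by linarith)
    nlinarith
  have hh : (μ : ℝ) = ν - 1 - ((ν : ℝ) - 1 - μ) := by ring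
  have h5 := hN5 ν ((ν : ℝ) - 1 - μ) (by linarith) (by linarith) (by linarith)
  rw [← hh] at h5
  have h4 := hN4 m ν (by omega) (by omega)
  have hνm : 2 * (ν : ℝ) + 1 ≤ m := by linarith
  have hfin := CBN_fin K m ν ((ν : ℝ) - 1 - μ) (√((ν : ℝ) - 1)) hK0 hmR hνm (by linarith) (by linarith)
    (by linarith) rfl
  have h6 : (e : ℝ) - μ + T = m - 2 * ν + ((ν : ℝ) - 1 - μ) := by
    rw [hsumR]
    ring
  rw [h6] at hXG
  linarith

end Pool.Agent.helper9.HX
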